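import Pool.Agent.Helper343.NR2
import Pool.Agent.Y969.GP.Def

set_option autoImplicit false

/-!
# Project GP: Cauchy's theorem on a rectangle with a double pole, and the radius of the circle
-/

open Complex Filter Topology MeasureTheory Set
open Pool.Agent.Y969.GP

namespace Pool.Agent.Y155.GP

/-! ### integrals over the line of functions supported in an interval -/

theorem toInt {a b : ℝ} (hab : a ≤ b) (f g : ℝ → ℂ)
    (hg : ∀ θ, g θ = if θ ∈ Icc a b then f θ else 0) : ∫ θ, g θ = ∫ θ in a..b, f θ := by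
  have h1 : g = (Icc a b).indicator f := by
    funext θ
    rw [hg, Set.indicator_apply]
  rw [h1, integral_indicator measurableSet_Icc, integral_Icc_eq_integral_Ioc,
    intervalIntegral.integral_of_le hab]

/-! ### the double pole -/

/-- `1/s²` on a segment -/
theorem seg {α β : ℂ} {a b : ℝ} (hne : ∀ θ ∈ uIcc a b, α + θ * β ≠ 0) :
    β * ∫ θ in a..b, ((α + (θ : ℂ) * β) ^ 2)⁻¹ = (α + a * β)⁻¹ - (α + b * β)⁻¹ := by
  have h := intervalIntegral.integral_eq_sub_of_hasDerivAt
    (f := fun θ : ℝ => -(α + (θ : ℂ) * β)⁻¹) (f' := fun θ : ℝ => β * ((α + (θ : ℂ) * β) ^ 2)⁻¹)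
    (a := a) (b := b) (fun θ hθ => ?_) ?_
  · rw [← intervalIntegral.integral_const_mul, h]
    ring
  · have h1 : HasDerivAt (fun θ : ℝ => α + (θ : ℂ) * β) β θ := by
      have := ((Complex.ofRealCLM.hasDerivAt (x := θ)).mul_const β).const_add α
      simpa using this
    have h2 := (h1.inv (hne θ hθ)).neg
    refine h2.congr_deriv ?_
    rw [neg_div, neg_neg, div_eq_mul_inv]
  · apply ContinuousOn.intervalIntegrable
    refine ContinuousOn.mul continuousOn_const (ContinuousOn.inv₀ (by fun_prop) fun θ hθ => ?_)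
    exact pow_ne_zero 2 (hne θ hθ)

/-- the integral of `1/s²` over the boundary of a rectangle around `0` -/
theorem rect_sq {a b c d : ℝ} (ha : a < 0) (hb : 0 < b) (hc : c < 0) (hd : 0 < d) :
    (∫ x in a..b, (((x : ℂ) + c * I) ^ 2)⁻¹) - (∫ x in a..b, (((x : ℂ) + d * I) ^ 2)⁻¹)
      + I * (∫ y in c..d, (((b : ℂ) + y * I) ^ 2)⁻¹) - I * (∫ y in c..d, (((a : ℂ) + y * I) ^ 2)⁻¹)
      = 0 := by
  have e1 : ∀ e : ℝ, e ≠ 0 → (∫ x in a..b, (((x : ℂ) + e * I) ^ 2)⁻¹) =
      ((a : ℂ) + e * I)⁻¹ - ((b : ℂ) + e * I)⁻¹ := by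
    intro e he
    have h := seg (α := (e : ℂ) * I) (β := 1) (a := a) (b := b) (fun θ _ h => he (by
      have := congrArg Complex.im h
      simpa using this))
    simp only [mul_one, one_mul] at h
    rw [add_comm (a : ℂ), add_comm (b : ℂ), ← h]
    refine intervalIntegral.integral_congr fun x _ => ?_
    simp only [add_comm]
  have e2 : ∀ e : ℝ, e ≠ 0 → I * (∫ y in c..d, (((e : ℂ) + y * I) ^ 2)⁻¹) =
      ((e : ℂ) + c * I)⁻¹ - ((e : ℂ) + d * I)⁻¹ := by
    intro e he
    exact seg (α := (e : ℂ)) (β := I) (a := c) (b := d) (fun θ _ h => he (by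
      have := congrArg Complex.re h
      simpa using this))
  rw [e1 c hc.ne, e1 d hd.ne', e2 b hb.ne', e2 a ha.ne]
  ring

/-- Cauchy's theorem on a rectangle with a double pole at `0` -/
theorem rect2 {F : ℂ → ℂ} {a b c d : ℝ} (hF : DifferentiableOn ℂ F (uIcc a b ×ℂ uIcc c d))
    (ha : a < 0) (hb : 0 < b) (hc : c < 0) (hd : 0 < d) :
    (∫ x in a..b, F ((x : ℂ) + c * I) / ((x : ℂ) + c * I) ^ 2)
      - (∫ x in a..b, F ((x : ℂ) + d * I) / ((x : ℂ) + d * I) ^ 2)
      + I * (∫ y in c..d, F ((b : ℂ) + y * I) / ((b : ℂ) + y * I) ^ 2)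
      - I * (∫ y in c..d, F ((a : ℂ) + y * I) / ((a : ℂ) + y * I) ^ 2)
      = 2 * Real.pi * I * deriv F 0 := by
  have hab : a ≤ b := by linarith
  have hcd : c ≤ d := by linarith
  have hnhds : (uIcc a b ×ℂ uIcc c d) ∈ 𝓝 (0 : ℂ) := by
    rw [uIcc_of_le hab, uIcc_of_le hcd]
    have : IsOpen (Ioo a b ×ℂ Ioo c d) := isOpen_Ioo.reProdIm isOpen_Ioo
    apply mem_of_superset (this.mem_nhds ⟨⟨by simpa using ha, by simpa using hb⟩,
      ⟨by simpa using hc, by simpa using hd⟩⟩)
    exact fun w hw => ⟨Ioo_subset_Icc_self hw.1, Ioo_subset_Icc_self hw.2⟩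
  have hds : DifferentiableOn ℂ (dslope F 0) (uIcc a b ×ℂ uIcc c d) :=
    (Complex.differentiableOn_dslope hnhds).2 hF
  have H := Pool.Agent.H343N.rect_cauchy' (dslope F 0) a b c d hds 0 (by simpa using ha)
    (by simpa using hb) (by simpa using hc) (by simpa using hd)
  have R := rect_sq ha hb hc hd
  rw [dslope_same] at H
  simp only [sub_zero] at H
  have hgc : ContinuousOn (dslope F 0) (uIcc a b ×ℂ uIcc c d) := hds.continuousOn
  have hsub : ∀ w : ℂ, w ≠ 0 → F w / w ^ 2 = dslope F 0 w / w + F 0 * (w ^ 2)⁻¹ := by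
    intro w hw
    rw [dslope_of_ne _ hw, slope_def_field, sub_zero]
    field_simp
    ring
  have b1 : ∀ e : ℝ, e ≠ 0 → ∀ x : ℝ, (x : ℂ) + e * I ≠ 0 := by
    intro e he x h
    have := congrArg Complex.im h
    simp at this
    exact he this
  have b2 : ∀ e : ℝ, e ≠ 0 → ∀ y : ℝ, (e : ℂ) + y * I ≠ 0 := by
    intro e he x h
    have := congrArg Complex.re h
    simp at this
    exact he this
  have c1 : ∀ e : ℝ, e ∈ uIcc c d → ContinuousOn (fun x : ℝ => dslope F 0 ((x : ℂ) + e * I))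
      (uIcc a b) := by
    intro e he
    apply hgc.comp (by fun_prop)
    intro x hx
    refine ⟨?_, ?_⟩ <;> simpa
  have c2 : ∀ e : ℝ, e ∈ uIcc a b → ContinuousOn (fun y : ℝ => dslope F 0 ((e : ℂ) + y * I))
      (uIcc c d) := by
    intro e he
    apply hgc.comp (by fun_prop)
    intro x hx
    refine ⟨?_, ?_⟩ <;> simpa
  have s1 : ∀ e : ℝ, e ∈ uIcc c d → e ≠ 0 →
      (∫ x in a..b, F ((x : ℂ) + e * I) / ((x : ℂ) + e * I) ^ 2) =
        (∫ x in a..b, dslope F 0 ((x : ℂ) + e * I) / ((x : ℂ) + e * I))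
        + F 0 * ∫ x in a..b, (((x : ℂ) + e * I) ^ 2)⁻¹ := by
    intro e he' he
    rw [← intervalIntegral.integral_const_mul, ← intervalIntegral.integral_add]
    · apply intervalIntegral.integral_congr
      intro x _
      exact hsub _ (b1 e he x)
    · apply ContinuousOn.intervalIntegrable
      exact ContinuousOn.div (c1 e he') (by fun_prop) (fun x _ => b1 e he x)
    · apply Continuous.intervalIntegrable
      exact continuous_const.mul (Continuous.inv₀ (by fun_prop)
        fun x => pow_ne_zero 2 (b1 e he x))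
  have s2 : ∀ e : ℝ, e ∈ uIcc a b → e ≠ 0 →
      (∫ y in c..d, F ((e : ℂ) + y * I) / ((e : ℂ) + y * I) ^ 2) =
        (∫ y in c..d, dslope F 0 ((e : ℂ) + y * I) / ((e : ℂ) + y * I))
        + F 0 * ∫ y in c..d, (((e : ℂ) + y * I) ^ 2)⁻¹ := by
    intro e he' he
    rw [← intervalIntegral.integral_const_mul, ← intervalIntegral.integral_add]
    · apply intervalIntegral.integral_congr
      intro x _
      exact hsub _ (b2 e he x)
    · apply ContinuousOn.intervalIntegrable
      exact ContinuousOn.div (c2 e he') (by fun_prop) (fun x _ => b2 e he x)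
    · apply Continuous.intervalIntegrable
      exact continuous_const.mul (Continuous.inv₀ (by fun_prop)
        fun x => pow_ne_zero 2 (b2 e he x))
  rw [s1 c left_mem_uIcc hc.ne, s1 d right_mem_uIcc hd.ne', s2 b right_mem_uIcc hb.ne',
    s2 a left_mem_uIcc ha.ne]
  linear_combination H + F 0 * R

/-- the double pole on a circle -/
theorem circ2 {g : ℂ → ℂ} {r : ℝ} (hr : 0 < r) (hg : ∀ s : ℂ, ‖s‖ ≤ r → DifferentiableAt ℂ g s) :
    (∮ z in C(0, r), g z / z ^ 2) = 2 * Real.pi * I * deriv g 0 := by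
  have hgo : DifferentiableOn ℂ g (Metric.closedBall 0 r) := fun s hs =>
    (hg s (by simpa using hs)).differentiableWithinAt
  have hds : DifferentiableOn ℂ (dslope g 0) (Metric.closedBall 0 r) :=
    (Complex.differentiableOn_dslope (Metric.closedBall_mem_nhds 0 hr)).2 hgo
  have hd : DiffContOnCl ℂ (dslope g 0) (Metric.ball 0 r) := by
    apply DifferentiableOn.diffContOnCl
    rwa [closure_ball (0 : ℂ) hr.ne']
  have h1 := hd.circleIntegral_sub_inv_smul (w := 0) (Metric.mem_ball_self hr)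
  rw [dslope_same] at h1
  simp only [sub_zero, smul_eq_mul] at h1
  have h2 : (∮ z in C((0 : ℂ), r), (z - 0) ^ (-2 : ℤ)) = 0 :=
    circleIntegral.integral_sub_zpow_of_ne (by norm_num) 0 0 r
  have hne : ∀ z ∈ Metric.sphere (0 : ℂ) r, z ≠ 0 := by
    intro z hz h
    rw [h] at hz
    simp at hz
    exact hr.ne hz
  have h3 : (∮ z in C(0, r), g z / z ^ 2) =
      (∮ z in C(0, r), z⁻¹ * dslope g 0 z) + ∮ z in C((0 : ℂ), r), g 0 * (z - 0) ^ (-2 : ℤ) := by
    rw [← circleIntegral.integral_add]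
    · refine circleIntegral.integral_congr hr.le fun z hz => ?_
      have hz0 := hne z hz
      simp only [sub_zero]
      rw [dslope_of_ne _ hz0, slope_def_field, sub_zero, zpow_neg]
      have : z ^ (2 : ℤ) = z ^ 2 := by norm_cast
      rw [this]
      field_simp
      ring
    · refine ContinuousOn.circleIntegrable hr.le ?_
      refine ContinuousOn.mul (ContinuousOn.inv₀ continuousOn_id hne) ?_
      exact hds.continuousOn.mono Metric.sphere_subset_closedBall
    · refine ContinuousOn.circleIntegrable hr.le ?_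
      refine ContinuousOn.mul continuousOn_const ?_
      simp only [sub_zero]
      exact ContinuousOn.zpow₀ continuousOn_id _ fun z hz => Or.inl (hne z hz)
  rw [h3, h1]
  have h4 : (∮ z in C((0 : ℂ), r), g 0 * (z - 0) ^ (-2 : ℤ)) = 0 := by
    have := circleIntegral.integral_const_mul (g 0) (fun z : ℂ => (z - 0) ^ (-2 : ℤ)) 0 r
    rw [this, h2, mul_zero]
  rw [h4, add_zero]

/-- the integral over the circle is a derivative at `0` -/
theorem circ_path {σ η H r u : ℝ} {h : ℂ → ℂ} (hr : 0 < r)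
    (hh : ∀ s : ℂ, ‖s‖ ≤ r → DifferentiableAt ℂ h s) :
    ∫ θ, h (gam σ η H r Kd.C θ) * wt σ η H r u Kd.C θ =
      deriv (fun s => h s * (2 * cexp (s * (Real.log (u / (2 * Real.pi)) : ℝ)))) 0 := by
  have hpi : (Real.pi : ℂ) ≠ 0 := by exact_mod_cast Real.pi_ne_zero
  rw [toInt (a := 0) (b := 2 * Real.pi) (by positivity)
    (fun θ => h (gam σ η H r Kd.C θ) * (kr u (gam σ η H r Kd.C θ) * gam σ η H r Kd.C θ /
      (2 * Real.pi))) _ (fun θ => by
      unfold wt dom
      split_ifs with h1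
      · rfl
      · simp)]
  have hg : ∀ s : ℂ, ‖s‖ ≤ r → DifferentiableAt ℂ
      (fun s => h s * (2 * cexp (s * (Real.log (u / (2 * Real.pi)) : ℝ)))) s := by
    intro s hs
    exact (hh s hs).mul (by fun_prop)
  have h2 := circ2 hr hg
  have h3 : (∮ z in C(0, r), (fun s => h s * (2 * cexp (s * (Real.log (u / (2 * Real.pi)) : ℝ)))) z
      / z ^ 2) = 2 * Real.pi * I * ∫ θ in (0 : ℝ)..(2 * Real.pi), h (gam σ η H r Kd.C θ) *
        (kr u (gam σ η H r Kd.C θ) * gam σ η H r Kd.C θ / (2 * Real.pi)) := by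
    rw [circleIntegral, ← intervalIntegral.integral_const_mul]
    refine intervalIntegral.integral_congr fun θ _ => ?_
    have e1 : circleMap 0 r θ = gam σ η H r Kd.C θ := by
      simp only [circleMap, zero_add, gam]
      rw [mul_comm (θ : ℂ) I]
    simp only [deriv_circleMap, smul_eq_mul]
    rw [e1]
    simp only [kr]
    field_simp
  rw [h3] at h2
  have h4 : 2 * Real.pi * I ≠ 0 := by
    simp [hpi, I_ne_zero]
  exact mul_left_cancel₀ h4 h2

theorem t_D2 : S_D2 := by
  intro σ η H r r' u h hr hrr hu hh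
  rw [circ_path hr (fun s hs => hh s (hs.trans hrr)), circ_path (hr.trans_le hrr) hh]

theorem t_D1 : S_D1 := by
  intro σ η H r u h hr hσ hη hH hu hh
  have hpi : (Real.pi : ℂ) ≠ 0 := by exact_mod_cast Real.pi_ne_zero
  set L : ℝ := Real.log (u / (2 * Real.pi)) with hL
  rw [circ_path hr (fun s hs => hh s
    (by have := (abs_le.1 ((Complex.abs_re_le_norm s).trans hs)).1; linarith)
    (by have := (abs_le.1 ((Complex.abs_re_le_norm s).trans hs)).2; linarith)
    ((Complex.abs_im_le_norm s).trans (hs.trans hH.le)))]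
  set F : ℂ → ℂ := fun s => h s * (2 * cexp (s * (L : ℝ))) * cexp (s ^ 2) with hF
  have hFd : DifferentiableOn ℂ F (uIcc (-σ) η ×ℂ uIcc (-H) H) := by
    intro s hs
    rw [uIcc_of_le (by linarith), uIcc_of_le (by linarith)] at hs
    have h1 : DifferentiableAt ℂ h s := hh s hs.1.1 hs.1.2 (abs_le.2 ⟨hs.2.1, hs.2.2⟩)
    refine DifferentiableAt.differentiableWithinAt ?_
    exact (h1.mul (by fun_prop)).mul (by fun_prop)
  have key := rect2 hFd (by linarith) (by linarith) (by linarith) (by linarith)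
  have h0 : DifferentiableAt ℂ (fun s : ℂ => h s * (2 * cexp (s * (L : ℝ)))) 0 := by
    have h1 : DifferentiableAt ℂ h 0 := hh 0 (by simp; linarith) (by simp; linarith)
      (by simp; linarith)
    exact h1.mul (by fun_prop)
  have hder : deriv F 0 = deriv (fun s : ℂ => h s * (2 * cexp (s * (L : ℝ)))) 0 := by
    have h2 : HasDerivAt (fun s : ℂ => cexp (s ^ 2)) (cexp (0 ^ 2) * (2 * 0)) 0 := by
      have := ((hasDerivAt_pow 2 (0 : ℂ)).cexp)
      simpa using this
    have h3 : deriv F 0 = _ := (h0.hasDerivAt.mul h2).deriv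
    rw [h3]
    simp
  rw [hder] at key
  have eR : ∫ θ, h (gam σ η H r Kd.R θ) * wt σ η H r u Kd.R θ =
      (2 * Real.pi : ℂ)⁻¹ * ∫ y in (-H)..H, F ((η : ℂ) + y * I) / ((η : ℂ) + y * I) ^ 2 := by
    rw [← intervalIntegral.integral_const_mul]
    refine toInt (by linarith) _ _ fun θ => ?_
    unfold wt dom
    split_ifs with h1
    · simp only [gam, kr, hF, mul_comm I]
      ring
    · simp
  have eL : ∫ θ, h (gam σ η H r Kd.L θ) * wt σ η H r u Kd.L θ =
      (2 * Real.pi : ℂ)⁻¹ * ∫ y in (-H)..H, F (((-σ : ℝ) : ℂ) + y * I) /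
        (((-σ : ℝ) : ℂ) + y * I) ^ 2 := by
    rw [← intervalIntegral.integral_const_mul]
    refine toInt (by linarith) _ _ fun θ => ?_
    unfold wt dom
    split_ifs with h1
    · simp only [gam, kr, hF, mul_comm I, ofReal_neg]
      ring
    · simp
  have eB : ∫ θ, h (gam σ η H r Kd.B θ) * wt σ η H r u Kd.B θ =
      -(2 * Real.pi * I : ℂ)⁻¹ * ∫ x in (-σ)..η, F ((x : ℂ) + ((-H : ℝ) : ℂ) * I) /
        ((x : ℂ) + ((-H : ℝ) : ℂ) * I) ^ 2 := by
    rw [← intervalIntegral.integral_const_mul]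
    refine toInt (by linarith) _ _ fun θ => ?_
    unfold wt dom
    split_ifs with h1
    · have e : (θ : ℂ) + ((-H : ℝ) : ℂ) * I = (θ : ℂ) - I * H := by push_cast; ring
      rw [e]
      simp only [gam, kr, hF]
      ring
    · simp
  have eT : ∫ θ, h (gam σ η H r Kd.T θ) * wt σ η H r u Kd.T θ =
      (2 * Real.pi * I : ℂ)⁻¹ * ∫ x in (-σ)..η, F ((x : ℂ) + (H : ℂ) * I) /
        ((x : ℂ) + (H : ℂ) * I) ^ 2 := by
    rw [← intervalIntegral.integral_const_mul]
    refine toInt (by linarith) _ _ fun θ => ?_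
    unfold wt dom
    split_ifs with h1
    · have e : (θ : ℂ) + (H : ℂ) * I = (θ : ℂ) + I * H := by ring
      rw [e]
      simp only [gam, kr, hF]
      ring
    · simp
  rw [eR, eL, eB, eT]
  have hI : I ≠ 0 := I_ne_zero
  generalize (∫ y in (-H)..H, F ((η : ℂ) + y * I) / ((η : ℂ) + y * I) ^ 2) = IR at *
  generalize (∫ y in (-H)..H, F (((-σ : ℝ) : ℂ) + y * I) / (((-σ : ℝ) : ℂ) + y * I) ^ 2) = IL at *
  generalize (∫ x in (-σ)..η, F ((x : ℂ) + ((-H : ℝ) : ℂ) * I) /
    ((x : ℂ) + ((-H : ℝ) : ℂ) * I) ^ 2) = IB at *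
  generalize (∫ x in (-σ)..η, F ((x : ℂ) + (H : ℂ) * I) / ((x : ℂ) + (H : ℂ) * I) ^ 2) = IT at *
  have k1 : deriv (fun s : ℂ => h s * (2 * cexp (s * (L : ℝ)))) 0 =
      (2 * Real.pi * I : ℂ)⁻¹ * (IB - IT + I * IR - I * IL) := by
    have h4 : (2 * Real.pi * I : ℂ) ≠ 0 := by
      simp [hpi, I_ne_zero]
    rw [key, ← mul_assoc, inv_mul_cancel₀ h4, one_mul]
  rw [k1]
  field_simp
  ring

end Pool.Agent.Y155.GP
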